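import Pool.Agent.Work.MP_d6d6e6_ag.Main

/-!
Stability of centers for generic foliations in a center component (answer to Q1: yes).

All definitions are in `Pool/Agent/Work/MP_d6d6e6_ag/Defs.lean`.
-/

open Pool.Agent.Work.MP_d6d6e6_ag

namespace Pool.Agent.Results.MP_d6d6e6_ag.StableCenters

/-- Let `X` be an irreducible component of `M(d)`. There is a Zariski open and dense subset `U` of
`X` such that for every `F ∈ U`, all centers of `F` are stable relative to `X`. -/
theorem result (d : ℕ) (hd : 2 ≤ d) (X : Set (PForm d))
    (hX : IsIrreducibleComponent X (centerVariety d)) :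
    ∃ U : Set (PForm d), IsOpenDenseIn U X ∧
      ∀ F ∈ U, ∀ p : Fin 2 → ℂ, IsCenter F.rep p → IsStable X F p :=
  stable_centers hX.prop.1

end Pool.Agent.Results.MP_d6d6e6_ag.StableCenters
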